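import Mathlib

set_option autoImplicit false

/-!
# MP_94a57f_an: definitions

Dirichlet space `D^{1,2}(ℝ^N)` (as a space of gradients), its subspaces `D_0^{1,2}(Ω)`, weak
equations, annuli, axially symmetric functions, bubbles, zonal polynomials.
-/

open MeasureTheory Filter Topology Set
open scoped ContDiff Gradient RealInnerProductSpace ENNReal

noncomputable section

namespace Pool.Agent.helper13.BN

/-- Euclidean space `ℝ^N`. -/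
abbrev E (N : ℕ) : Type := EuclideanSpace ℝ (Fin N)

/-- The Hilbert space of square integrable vector fields. -/
abbrev LV (N : ℕ) : Type := Lp (E N) 2 (volume : Measure (E N))

variable {N : ℕ}

/-- The Laplacian `∑ ∂_i ∂_i u`. -/
def lap (u : E N → ℝ) (x : E N) : ℝ :=
  ∑ i : Fin N, fderiv ℝ (fun y => fderiv ℝ u y (EuclideanSpace.single i 1)) x
    (EuclideanSpace.single i 1)

/-- Test functions in `Ω`. -/
def IsTest (Ω : Set (E N)) (φ : E N → ℝ) : Prop :=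
  ContDiff ℝ ∞ φ ∧ HasCompactSupport φ ∧ tsupport φ ⊆ Ω

/-- `w` is the gradient of `φ`. -/
def IsGrad (w : LV N) (φ : E N → ℝ) : Prop := (w : E N → E N) =ᵐ[volume] fun x => ∇ φ x

/-- The gradients of test functions. -/
def gradSet (Ω : Set (E N)) : Set (LV N) := {w | ∃ φ, IsTest Ω φ ∧ IsGrad w φ}

/-- The Dirichlet space of `Ω` (as a space of gradients): closure of the gradients of test
functions in `L²(ℝ^N; ℝ^N)`. -/
def DD (Ω : Set (E N)) : Submodule ℝ (LV N) := (Submodule.span ℝ (gradSet Ω)).topologicalClosure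

/-- The critical exponent `2* = 2N/(N-2)`. -/
def ts (N : ℕ) : ℝ := 2 * N / (N - 2)

/-- The dual exponent `2N/(N+2)`. -/
def td (N : ℕ) : ℝ := 2 * N / (N + 2)

/-- `g ∈ L^q(Ω)`. -/
abbrev Mq (q : ℝ) (Ω : Set (E N)) (g : E N → ℝ) : Prop :=
  MemLp g (ENNReal.ofReal q) (volume.restrict Ω)

/-- The norm of `g` in `L^q(Ω)`. -/
def nq (q : ℝ) (Ω : Set (E N)) (g : E N → ℝ) : ℝ :=
  (eLpNorm g (ENNReal.ofReal q) (volume.restrict Ω)).toReal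

/-- `u` is the function whose gradient is `w ∈ D^{1,2}(ℝ^N)`. -/
def IsFn (w : LV N) (u : E N → ℝ) : Prop :=
  AEStronglyMeasurable u volume ∧
  ∃ (φ : ℕ → E N → ℝ) (W : ℕ → LV N), (∀ n, IsTest univ (φ n) ∧ IsGrad (W n) (φ n)) ∧
    Tendsto W atTop (𝓝 w) ∧
    Tendsto (fun n => eLpNorm (fun x => φ n x - u x) (ENNReal.ofReal (ts N)) volume) atTop (𝓝 0)

open Classical in
/-- The function whose gradient is `w`. -/
def fn (w : LV N) : E N → ℝ := if h : ∃ u, IsFn w u then h.choose else 0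

/-- `-Δ w = g` weakly in `Ω`, `w = 0` on `∂Ω`. -/
def Weak (Ω : Set (E N)) (w : LV N) (g : E N → ℝ) : Prop :=
  w ∈ DD Ω ∧ ∀ (φ : E N → ℝ) (W : LV N), IsTest Ω φ → IsGrad W φ → ⟪w, W⟫ = ∫ x, g x * φ x

open Classical in
/-- The solution operator: `T Ω g` solves `-Δ w = g` in `Ω`, `w = 0` on `∂Ω`. -/
def T (Ω : Set (E N)) (g : E N → ℝ) : LV N := if h : ∃ w, Weak Ω w g then h.choose else 0

/-- The annulus `ρ < |x| < 1`. -/
def ann (N : ℕ) (ρ : ℝ) : Set (E N) := {x | ρ < ‖x‖ ∧ ‖x‖ < 1}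

/-- `h` is (a.e.) a measurable function of `|x|` and `x · e`. -/
def Axial (e : E N) (h : E N → ℝ) : Prop :=
  ∃ k : ℝ × ℝ → ℝ, Measurable k ∧ ∀ᵐ x, h x = k (‖x‖, ⟪x, e⟫)

/-- The axially symmetric elements of `D_0^{1,2}` of the annulus (a closed subspace, see `XS`). -/
def XX (e : E N) (ρ : ℝ) : Set (LV N) := {w | w ∈ DD (ann N ρ) ∧ Axial e (fn w)}

/-- The closed subspace generated by `XX e ρ` (equal to `XX e ρ` for `N ≥ 3`). -/
def XS (e : E N) (ρ : ℝ) : Submodule ℝ (LV N) := (Submodule.span ℝ (XX e ρ)).topologicalClosure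

/-- The reflection in the hyperplane through `0` orthogonal to the unit vector `n`. -/
def refl (n : E N) (x : E N) : E N := x - (2 * ⟪x, n⟫) • n

/-- `p - 1 = 4/(N-2)`. -/
def pm (N : ℕ) : ℝ := 4 / (N - 2)

/-- The nonlinearity `f(u) = |u|^{2*-2} u`. -/
def nl (N : ℕ) (u : ℝ) : ℝ := |u| ^ pm N * u

/-- `f'(u) = p |u|^{p-1}`. -/
def dnl (N : ℕ) (u : ℝ) : ℝ := (pm N + 1) * |u| ^ pm N

/-- `F(u) = |u|^{2*}/2*`. -/
def NL (N : ℕ) (u : ℝ) : ℝ := |u| ^ (pm N + 2) / (pm N + 2)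

/-- `c = (N-2)/2`. -/
def cc (N : ℕ) : ℝ := (N - 2) / 2

/-- The constant `α_N = (N(N-2))^{(N-2)/4}`. -/
def alN (N : ℕ) : ℝ := (N * (N - 2)) ^ (((N : ℝ) - 2) / 4)

/-- The Aubin–Talenti bubble. -/
def bub (N : ℕ) (μ : ℝ) (ξ x : E N) : ℝ :=
  alN N * μ ^ cc N * (μ ^ 2 + ‖x - ξ‖ ^ 2) ^ (-cc N)

/-- `μ ∂_μ U_{μ,ξ}`, explicitly. -/
def bubMu (N : ℕ) (μ : ℝ) (ξ x : E N) : ℝ :=
  cc N * ((‖x - ξ‖ ^ 2 - μ ^ 2) / (μ ^ 2 + ‖x - ξ‖ ^ 2)) * bub N μ ξ x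

/-- `μ ∂_{ξ·e} U_{μ,ξ}`, explicitly. -/
def bubXi (N : ℕ) (e : E N) (μ : ℝ) (ξ x : E N) : ℝ :=
  2 * cc N * (μ * ⟪x - ξ, e⟫ / (μ ^ 2 + ‖x - ξ‖ ^ 2)) * bub N μ ξ x

open Polynomial in
/-- Zonal (Gegenbauer) polynomials in dimension `N`, normalised by `P_j(1) = 1`. -/
def PZ (N : ℕ) : ℕ → Polynomial ℝ
  | 0 => 1
  | 1 => X
  | (j + 2) => C (1 / ((j : ℝ) + 1 + N - 2)) *
      (C (2 * ((j : ℝ) + 1) + N - 2) * X * PZ N (j + 1) - C ((j : ℝ) + 1) * PZ N j)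

/-- The zonal polynomial as a function. -/
def Pz (N j : ℕ) (s : ℝ) : ℝ := (PZ N j).eval s

/-- Density of the first coordinate on the sphere `S^{N-1}` (not normalised). -/
def wt (N : ℕ) (s : ℝ) : ℝ := (1 - s ^ 2) ^ (((N : ℝ) - 3) / 2)

/-- The average over the sphere `S^{N-1}` of the function `q(x·e)`. -/
def av (N : ℕ) (q : ℝ → ℝ) : ℝ :=
  (∫ s in (-1 : ℝ)..1, q s * wt N s) / ∫ s in (-1 : ℝ)..1, wt N s

/-- The function `|x|^{-c} y(-log |x|) q(x·e/|x|)`. -/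
def cyl (N : ℕ) (e : E N) (y q : ℝ → ℝ) (x : E N) : ℝ :=
  ‖x‖ ^ (-cc N) * y (-Real.log ‖x‖) * q (⟪x, e⟫ / ‖x‖)

/-- `Y` solves `Y'' = q Y`, `Y(0) = 0`, `Y'(0) = 1`. -/
def IsSol1 (q Y : ℝ → ℝ) : Prop :=
  Y 0 = 0 ∧ deriv Y 0 = 1 ∧ Differentiable ℝ Y ∧ ∀ t, HasDerivAt (deriv Y) (q t * Y t) t

/-- The coefficient `ν² - λ e^{-2t}`. -/
def qf (ν lam t : ℝ) : ℝ := ν ^ 2 - lam * Real.exp (-2 * t)

open Classical in
/-- The solution of `y'' = (ν² - λ e^{-2t}) y`, `y(0) = 0`, `y'(0) = 1`. -/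
def yf (ν lam : ℝ) : ℝ → ℝ := if h : ∃ Y, IsSol1 (qf ν lam) Y then h.choose else 0

end Pool.Agent.helper13.BN
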