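import Pool.Agent.helper13.BN.Defs

set_option autoImplicit false

/-!
# MP_94a57f_an: definitions for the solution family on the annulus
-/

open MeasureTheory Filter Topology Set Metric
open scoped ContDiff Gradient RealInnerProductSpace ENNReal

noncomputable section

namespace Pool.Agent.helper13.BN

variable {N : ℕ}

open Classical in
/-- The operator `w ↦ T (a w)` on the axially symmetric functions of the annulus. -/
def Kop (e : E N) (ρ : ℝ) (a : E N → ℝ) : XS e ρ →L[ℝ] XS e ρ :=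
  if h : ∃ K : XS e ρ →L[ℝ] XS e ρ,
      ∀ w : XS e ρ, (K w : LV N) = T (ann N ρ) (fun x => a x * fn (w : LV N) x)
  then h.choose else 0

/-- `∫_0^L av (G (y₀(t), y_l(t) P_l(s))) dt`. -/
def cI (N l : ℕ) (y0 yl : ℝ → ℝ) (L : ℝ) (G : ℝ → ℝ → ℝ) : ℝ :=
  ∫ t in (0 : ℝ)..L, av N (fun s => G (y0 t) (yl t * Pz N l s))

/-- condition (C1) at the crossing -/
def CondA (N l : ℕ) (y0 yl : ℝ → ℝ) (L : ℝ) : Prop :=
  cI N l y0 yl L (fun u v => nl N (u - v) * u) / (∫ t in (0 : ℝ)..L, Real.exp (-2 * t) * y0 t ^ 2)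
    < - cI N l y0 yl L (fun u v => nl N (u - v) * v) /
      (∫ t in (0 : ℝ)..L, Real.exp (-2 * t) * (yl t ^ 2 * av N (fun s => Pz N l s ^ 2)))

/-- condition (C2) at the crossing -/
def CondB (N l : ℕ) (y0 yl : ℝ → ℝ) (L : ℝ) : Prop :=
  (cI N l y0 yl L (fun u v => dnl N (u - v) * u ^ 2) - cI N l y0 yl L (fun u v => nl N (u - v) * u))
    * (cI N l y0 yl L (fun u v => dnl N (u - v) * v ^ 2)
      + cI N l y0 yl L (fun u v => nl N (u - v) * v))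
    - cI N l y0 yl L (fun u v => dnl N (u - v) * (u * v)) ^ 2 ≠ 0

/-- Crossing data: radii `e^{-L_i} → e^{-L}` for which the second radial eigenvalue `lam1 i` and the
first eigenvalue `lam2 i` of the zonal mode `l` are different but converge to the same limit. -/
structure Cr (N : ℕ) where
  l : ℕ
  L : ℝ
  lam : ℝ
  Ls : ℕ → ℝ
  lam1 : ℕ → ℝ
  lam2 : ℕ → ℝ
  hl : Odd l
  hL : 0 < L
  hlam : 0 < lam
  h1 : yf (cc N) lam L = 0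
  h2 : yf (l + cc N) lam L = 0
  tL : Tendsto Ls atTop (𝓝 L)
  t1 : Tendsto lam1 atTop (𝓝 lam)
  t2 : Tendsto lam2 atTop (𝓝 lam)
  posL : ∀ i, 0 < Ls i
  pos1 : ∀ i, 0 < lam1 i
  lt : ∀ i, lam1 i < lam2 i
  z1 : ∀ i, yf (cc N) (lam1 i) (Ls i) = 0
  z2 : ∀ i, yf (l + cc N) (lam2 i) (Ls i) = 0
  node : ∃ z ∈ Ioo 0 L, ∀ t ∈ Ioo 0 L, yf (cc N) lam t = 0 ↔ t = z
  pos : ∀ t ∈ Ioo 0 L, 0 < yf (l + cc N) lam t
  nonres : ∀ j : ℕ, j ≠ 0 → j ≠ l → yf (j + cc N) lam L ≠ 0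
  condA : CondA N l (yf (cc N) lam) (yf (l + cc N) lam) L
  condB : CondB N l (yf (cc N) lam) (yf (l + cc N) lam) L

/-- the inner radius -/
def Cr.rho (D : Cr N) (i : ℕ) : ℝ := Real.exp (-(D.Ls i))

/-- the annulus number `i` -/
def Cr.Om (D : Cr N) (i : ℕ) : Set (E N) := ann N (D.rho i)

open Classical in
/-- The eigenfunction `|x|^{-c} y(-log|x|) P_j` as an element of the Dirichlet space. -/
def eig (e : E N) (j : ℕ) (lam L : ℝ) : LV N :=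
  if h : ∃ w ∈ XS e (Real.exp (-L)), fn w =ᵐ[volume]
      (ann N (Real.exp (-L))).indicator (cyl N e (yf (j + cc N) lam) (Pz N j))
  then h.choose else 0

def Cr.F1 (D : Cr N) (e : E N) (i : ℕ) : LV N := eig e 0 (D.lam1 i) (D.Ls i)
def Cr.F2 (D : Cr N) (e : E N) (i : ℕ) : LV N := eig e D.l (D.lam2 i) (D.Ls i)
def Cr.f1 (D : Cr N) (e : E N) (i : ℕ) : E N → ℝ := cyl N e (yf (cc N) (D.lam1 i)) (Pz N 0)
def Cr.f2 (D : Cr N) (e : E N) (i : ℕ) : E N → ℝ := cyl N e (yf (D.l + cc N) (D.lam2 i)) (Pz N D.l)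

/-- `(ω, σ, lam')` solves the equation for the parameter `b` in the annulus number `i`. -/
structure SolB (D : Cr N) (e : E N) (i : ℕ) (C : ℝ) (b : ℝ) (om : LV N) (sig lam' : ℝ) : Prop where
  mem : om ∈ XS e (D.rho i)
  sig_pos : 0 < sig
  om_le : ‖om‖ ≤ C * sig
  orth1 : ⟪D.F1 e i, om⟫ = 0
  orth2 : ⟪D.F2 e i, om⟫ = 0
  near1 : |lam' - D.lam1 i| ≤ C * sig
  near2 : |lam' - D.lam2 i| ≤ C * sig
  bdd : ∀ᵐ x, |fn (D.F1 e i + b • D.F2 e i + om) x| ≤ C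
  eqn : Weak (D.Om i) (D.F1 e i + b • D.F2 e i + om) (fun x =>
    lam' * fn (D.F1 e i + b • D.F2 e i + om) x + sig * nl N (fn (D.F1 e i + b • D.F2 e i + om) x))

/-- `v` is the continuous representative (on `Ω`) of the function of `w`. -/
def IsRep (Ω : Set (E N)) (w : LV N) (v : E N → ℝ) : Prop :=
  ContinuousOn v Ω ∧ (∀ x ∉ Ω, v x = 0) ∧ fn w =ᵐ[volume] v

/-- bounds on `g`, on its differences and second differences along spheres -/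
def Tan (ρ K : ℝ) (g : E N → ℝ) : Prop :=
  (∀ x ∈ ann N ρ, |g x| ≤ K) ∧
  (∀ x ∈ ann N ρ, ∀ y ∈ ann N ρ, ‖x‖ = ‖y‖ → |g x - g y| ≤ K * ‖x - y‖) ∧
  (∀ (R : E N ≃ₗᵢ[ℝ] E N) (k : ℝ), (∀ x, ‖R x - x‖ ≤ k * ‖x‖) → ∀ x ∈ ann N ρ,
    |g (R x) + g (R.symm x) - 2 * g x| ≤ K * k ^ 2)

/-- The output of the construction of the solution family. -/
structure Fam (N : ℕ) (η : ℝ) where
  e : E N
  ρ : ℝ
  lamb : ℝ
  vb : LV N
  lam : ℕ → ℝ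
  v : ℕ → LV N
  V : ℕ → E N → ℝ
  K : ℝ
  gam : ℝ
  eps : ℕ → ℝ
  d₀ : ℝ
  he : ‖e‖ = 1
  hρ : 0 < ρ
  hρ1 : ρ < 1
  hlamb : 0 < lamb
  vb_mem : vb ∈ XS e ρ
  vb_sol : Weak (ann N ρ) vb (fun x => lamb * fn vb x + nl N (fn vb x))
  nondeg : ∀ w ∈ XS e ρ, Weak (ann N ρ) w (fun x => lamb * fn w x + dnl N (fn vb x) * fn w x) →
    w = 0
  vb_pos : ¬ ∀ᵐ x, fn vb x ≤ 0
  vb_neg : ¬ ∀ᵐ x, 0 ≤ fn vb x
  lam_lim : Tendsto lam atTop (𝓝 lamb)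
  lam_ne : ∀ n, lam n ≠ lamb
  v_mem : ∀ n, v n ∈ XS e ρ
  v_sol : ∀ n, Weak (ann N ρ) (v n) (fun x => lam n * fn (v n) x + nl N (fn (v n) x))
  v_lim : Tendsto v atTop (𝓝 vb)
  rep : ∀ n, IsRep (ann N ρ) (v n) (V n)
  hK : 0 < K
  V_le : ∀ n, ∀ x ∈ ann N ρ, |V n x| ≤ K * (1 - ‖x‖)
  hgam : 0 < gam
  eps_pos : ∀ n, 0 < eps n
  eps_lim : Tendsto eps atTop (𝓝 0)
  hd₀ : 0 < d₀
  hd₀1 : ρ < 1 - d₀
  prof : ∀ n, ∀ d ∈ Ioo 0 d₀, |V n ((1 - d) • e) - (eps n * d - gam * d ^ 3)|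
    ≤ η * gam * d ^ 3 + K * eps n * d ^ 2
  hold : ∀ n, ∀ d ∈ Ioo 0 d₀, ∀ x ∈ ann N ρ,
    |V n x - V n ((1 - d) • e)| ≤ K * ‖x - (1 - d) • e‖ ^ ((2 : ℝ) / 3)

end Pool.Agent.helper13.BN
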