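import Pool.Agent.helper13.BN.Defs2

set_option autoImplicit false

/-!
# MP_94a57f_an: definitions for the bubble part
-/

open MeasureTheory Filter Topology Set Metric
open scoped ContDiff Gradient RealInnerProductSpace ENNReal

noncomputable section

namespace Pool.Agent.helper13.BN

variable {N : ℕ}

/-- the functional -/
def JJ (ρ lam : ℝ) (u : LV N) : ℝ :=
  ‖u‖ ^ 2 / 2 - ∫ x in ann N ρ, (lam * fn u x ^ 2 / 2 + NL N (fn u x))

open Classical in
/-- its gradient on `XS` -/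
def gg (e : E N) (ρ lam : ℝ) (u : XS e ρ) : XS e ρ :=
  if h : ∃ z : XS e ρ, (z : LV N) = (u : LV N) -
      T (ann N ρ) (fun x => lam * fn (u : LV N) x + nl N (fn (u : LV N) x))
  then h.choose else 0

/-- its Hessian on `XS` -/
def Hess (e : E N) (ρ lam : ℝ) (u : XS e ρ) : XS e ρ →L[ℝ] XS e ρ :=
  ContinuousLinearMap.id ℝ (XS e ρ) - Kop e ρ (fun x => lam + dnl N (fn (u : LV N) x))

/-- the centre -/
def cen (e : E N) (d : ℝ) : E N := (1 - d) • e

/-- the projected bubble -/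
def WW (e : E N) (ρ : ℝ) (d μ : ℝ) : LV N :=
  T (ann N ρ) (fun x => nl N (bub N μ (cen e d) x))

/-- `μ ∂_μ W` -/
def ZM (e : E N) (ρ : ℝ) (d μ : ℝ) : LV N :=
  T (ann N ρ) (fun x => dnl N (bub N μ (cen e d) x) * bubMu N μ (cen e d) x)

/-- `- μ ∂_d W` -/
def ZX (e : E N) (ρ : ℝ) (d μ : ℝ) : LV N :=
  T (ann N ρ) (fun x => dnl N (bub N μ (cen e d) x) * bubXi N e μ (cen e d) x)

open Classical in
/-- the solution operator with values in `XS` -/
def Tx (e : E N) (ρ : ℝ) (g : E N → ℝ) : XS e ρ :=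
  if h : T (ann N ρ) g ∈ XS e ρ then ⟨T (ann N ρ) g, h⟩ else 0

/-- the sign of the bubble -/
def bet (N : ℕ) : ℝ := if N = 5 then -1 else 1

/-- the size of the error terms in the energy expansion -/
def Er (N : ℕ) (d μ : ℝ) : ℝ :=
  if N = 3 then μ else if N = 4 then μ ^ 2 / d + μ ^ ((5 : ℝ) / 3)
  else μ ^ ((13 : ℝ) / 6) + μ ^ 3 / d ^ 3

/-- the reduced energy in rescaled variables `x` (depth) and `y` (size) -/
def ered (N : ℕ) (aN bN : ℝ) (x y : ℝ) : ℝ :=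
  if N = 5 then aN * y * (x - x ^ 3) - bN / 2 * y ^ ((4 : ℝ) / 3)
  else aN * (alN N / 2 * (2 * x) ^ (2 - (N : ℝ)) * y ^ 2 - y * (x - x ^ 3))

/-- `D_n = √(ε_n/γ)` -/
def Fam.Dn {η : ℝ} (F : Fam N η) (n : ℕ) : ℝ := Real.sqrt (F.eps n / F.gam)

/-- the depth of the centre as a function of the rescaled variable `x` -/
def Fam.dep {η : ℝ} (F : Fam N η) (n : ℕ) (x : ℝ) : ℝ := F.Dn n * x

/-- the size `μ` of the bubble as a function of the rescaled variable `y` -/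
def Fam.siz {η : ℝ} (F : Fam N η) (n : ℕ) (y : ℝ) : ℝ :=
  ((if N = 5 then (F.gam / F.lamb) ^ 3 * F.Dn n ^ 9 else F.gam * F.Dn n ^ (N + 1)) * y) ^ (1 / cc N)

end Pool.Agent.helper13.BN
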