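import Pool.Agent.helper13.BN.Stmt
import Pool.Agent.helper22.BN.AxSp
import Pool.Agent.helper67.BN.FamFin
import Pool.Agent.helper74.BN.Trans
import Pool.Agent.helper29.BN.ProjSmall
import Pool.Agent.helper55.BN.BlowCore
import Pool.Agent.helper9.BN.BubFin

set_option autoImplicit false

/-! # MP_94a57f_an: assembly of the final statement -/

open MeasureTheory Filter Topology Set Metric
open scoped ContDiff Gradient RealInnerProductSpace ENNReal

noncomputable section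

namespace Pool.Agent.helper13.BN

variable {N : ℕ}

theorem blow (hN : 3 ≤ N) (hN5 : N ≤ 5) {η : ℝ} (F : Fam N η) {d μ : ℕ → ℝ} {φ : ℕ → LV N}
    (hd : ∀ᶠ n in atTop, 0 < d n) (hμ : ∀ᶠ n in atTop, 0 < μ n)
    (hμd : ∀ᶠ n in atTop, μ n ≤ d n ^ 2) (hφm : ∀ᶠ n in atTop, φ n ∈ XS F.e F.ρ)
    (hd0 : Tendsto d atTop (𝓝 0)) (hφ0 : Tendsto φ atTop (𝓝 0)) :
    (∀ M : ℝ, ∀ᶠ n in atTop,
      ¬ ∀ᵐ x, |fn (F.v n + bet N • WW F.e F.ρ (d n) (μ n) + φ n) x| ≤ M) ∧
    ∀ᶠ n in atTop, SignChanging (fn (F.v n + bet N • WW F.e F.ρ (d n) (μ n) + φ n)) := by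
  refine blow_core hN F ?_ hd hμ hμd hφm hd0 hφ0
  obtain ⟨C, d₁, hC, hd₁, hρd, h⟩ := proj_small hN hN5 F.hρ F.hρ1
  refine ⟨C, d₁, hC, hd₁, hρd, fun e d μ he h1 h2 h3 h4 => ?_⟩
  obtain ⟨-, -, -, -, -, -, h7, -, -, -, -, h12, -⟩ := h e d μ he h1 h2 h3 h4
  exact ⟨h7, h12⟩

/-- a solution of `(BN_lam)` of the required shape up to `κ` -/
def GoodSol (e : E N) (ρ : ℝ) (vb : LV N) (κ lam : ℝ) (w : LV N) (d μ : ℝ) : Prop :=
  Weak (ann N ρ) w (fun x => lam * fn w x + nl N (fn w x)) ∧ SignChanging (fn w) ∧ 0 < d ∧ d < κ ∧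
    d < 1 - ρ ∧ 0 < μ ∧ μ < κ ∧ (¬ ∀ᵐ x, |fn w x| ≤ κ⁻¹) ∧
    ‖w - vb - bet N • WW e ρ d μ‖ < κ

theorem good_of_near (hN : 3 ≤ N) (hN5 : N ≤ 5) {η : ℝ}
    (hfin : ∀ F : Fam N η,
    ∃ (n₀ : ℕ) (d μ : ℕ → ℝ) (φ : ℕ → LV N), (∀ n, n₀ ≤ n → 0 < d n ∧ 0 < μ n ∧ μ n ≤ d n ^ 2 ∧
      φ n ∈ XS F.e F.ρ ∧ Weak (ann N F.ρ) (F.v n + bet N • WW F.e F.ρ (d n) (μ n) + φ n)
        (fun x => F.lam n * fn (F.v n + bet N • WW F.e F.ρ (d n) (μ n) + φ n) x
          + nl N (fn (F.v n + bet N • WW F.e F.ρ (d n) (μ n) + φ n) x))) ∧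
      Tendsto d atTop (𝓝 0) ∧ Tendsto μ atTop (𝓝 0) ∧ Tendsto φ atTop (𝓝 0))
    {e : E N} {ρ lamb : ℝ} {vb : LV N} {s δ : ℝ} (hs : s = 1 ∨ s = -1) (hδ : 0 < δ)
    (hρ1 : ρ < 1)
    (hF : ∀ lam : ℕ → ℝ, Tendsto lam atTop (𝓝 lamb) →
        (∀ n, 0 < s * (lam n - lamb) ∧ s * (lam n - lamb) < δ) →
        ∃ F : Fam N η, F.e = e ∧ F.ρ = ρ ∧ F.lamb = lamb ∧ F.vb = vb ∧ F.lam = lam)
    {κ : ℝ} (hκ : 0 < κ) :
    ∃ δ' : ℝ, 0 < δ' ∧ ∀ lam : ℝ, 0 < s * (lam - lamb) → s * (lam - lamb) < δ' →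
      ∃ (w : LV N) (d μ : ℝ), GoodSol e ρ vb κ lam w d μ := by
  by_contra hcon
  push Not at hcon
  have hpos : ∀ n : ℕ, (0 : ℝ) < δ / (n + 2) := fun n => by positivity
  choose lam h1 h2 h3 using fun n : ℕ => hcon (δ / (n + 2)) (hpos n)
  have hlim : Tendsto lam atTop (𝓝 lamb) := by
    have hb : ∀ n : ℕ, |lam n - lamb| ≤ δ / (n + 2) := by
      intro n
      have e1 : |lam n - lamb| = s * (lam n - lamb) := by
        have h0 := h1 n
        rcases hs with rfl | rfl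
        · rw [abs_of_pos (by linarith)]; ring
        · rw [abs_of_neg (by linarith)]; ring
      rw [e1]; exact (h2 n).le
    have hz : Tendsto (fun n : ℕ => δ / ((n : ℝ) + 2)) atTop (𝓝 0) := by
      have := tendsto_const_nhds (x := δ) (f := (atTop : Filter ℕ)) |>.div_atTop
        (tendsto_atTop_add_const_right _ (2 : ℝ) tendsto_natCast_atTop_atTop)
      simpa using this
    have h0 : Tendsto (fun n => lam n - lamb) atTop (𝓝 0) :=
      squeeze_zero_norm (fun n => by rw [Real.norm_eq_abs]; exact hb n) hz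
    simpa using h0.add_const lamb
  obtain ⟨F, rfl, rfl, rfl, rfl, hlam⟩ := hF lam hlim (fun n => ⟨h1 n, (h2 n).trans (by
    rw [div_lt_iff₀ (by positivity)]; nlinarith)⟩)
  obtain ⟨n₀, d, μ, φ, hp, hd, hμ, hφ⟩ := hfin F
  have ev : ∀ᶠ n in atTop, n₀ ≤ n := eventually_ge_atTop n₀
  obtain ⟨hb1, hb2⟩ := blow hN hN5 F (ev.mono fun n hn => (hp n hn).1)
    (ev.mono fun n hn => (hp n hn).2.1) (ev.mono fun n hn => (hp n hn).2.2.1)
    (ev.mono fun n hn => (hp n hn).2.2.2.1) hd hφ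
  have hdist : Tendsto (fun n => ‖F.v n + bet N • WW F.e F.ρ (d n) (μ n) + φ n - F.vb
      - bet N • WW F.e F.ρ (d n) (μ n)‖) atTop (𝓝 0) := by
    have e1 : ∀ n, F.v n + bet N • WW F.e F.ρ (d n) (μ n) + φ n - F.vb
        - bet N • WW F.e F.ρ (d n) (μ n) = (F.v n - F.vb) + φ n := fun n => by abel
    simp only [e1]
    have h4 : Tendsto (fun n => (F.v n - F.vb) + φ n) atTop (𝓝 0) := by
      have := (F.v_lim.sub_const F.vb).add hφ
      simpa using this
    simpa using h4.norm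
  have hκ1 : (0 : ℝ) < 1 - F.ρ := by linarith
  obtain ⟨n, hn1, hn2, hn3, hn4, hn5, hn6, hn7⟩ := (ev.and ((hd.eventually (gt_mem_nhds hκ)).and
    ((hd.eventually (gt_mem_nhds hκ1)).and ((hμ.eventually (gt_mem_nhds hκ)).and
    ((hb1 κ⁻¹).and (hb2.and (hdist.eventually (gt_mem_nhds hκ)))))))).exists
  obtain ⟨p1, p2, p3, p4, p5⟩ := hp n hn1
  refine h3 n _ (d n) (μ n) ⟨?_, hn6, p1, hn2, hn3, p2, hn4, hn5, hn7⟩
  rw [← hlam]
  exact p5

theorem main : MainStatement := by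
  intro N hN
  have hN3 : 3 ≤ N := by omega
  have hN5 : N ≤ 5 := by omega
  obtain ⟨η, hη, hfin⟩ := bub_fin (N := N) hN3 hN5
  obtain ⟨e, ρ, lamb, vb, s, δ, hs, hδ, hlamb, hρ, hρ1, hF⟩ := fam_strong (N := N) hN3 hN5 hη
  have hs2 : s * s = 1 := by rcases hs with rfl | rfl <;> norm_num
  -- one member of the family, for the facts about `vb`
  obtain ⟨F0, he0, hρ0, hl0, hv0, -⟩ := hF (fun n : ℕ => lamb + s * (δ / (n + 2))) (by
      have hz : Tendsto (fun n : ℕ => δ / ((n : ℝ) + 2)) atTop (𝓝 0) := by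
        have := tendsto_const_nhds (x := δ) (f := (atTop : Filter ℕ)) |>.div_atTop
          (tendsto_atTop_add_const_right _ (2 : ℝ) tendsto_natCast_atTop_atTop)
        simpa using this
      have := (hz.const_mul s).const_add lamb
      simpa using this) (by
      intro n
      have e1 : s * (lamb + s * (δ / ((n : ℝ) + 2)) - lamb) = δ / ((n : ℝ) + 2) := by
        calc s * (lamb + s * (δ / ((n : ℝ) + 2)) - lamb) = (s * s) * (δ / ((n : ℝ) + 2)) := by ring
          _ = _ := by rw [hs2, one_mul]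
      rw [e1]
      refine ⟨by positivity, ?_⟩
      rw [div_lt_iff₀ (by positivity)]; nlinarith)
  have hball : ann N ρ ⊆ ball 0 1 := fun x hx => by
    rw [mem_ball_zero_iff]; exact hx.2
  have hopen : IsOpen (ann N ρ) :=
    (isOpen_lt continuous_const continuous_norm).inter (isOpen_lt continuous_norm continuous_const)
  have hmeas : MeasurableSet (ann N ρ) := hopen.measurableSet
  have he : ‖e‖ = 1 := he0 ▸ F0.he
  have hgood : ∀ κ : ℝ, 0 < κ → ∃ δ' : ℝ, 0 < δ' ∧ ∀ lam : ℝ, 0 < s * (lam - lamb) →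
      s * (lam - lamb) < δ' → ∃ (w : LV N) (d μ : ℝ), GoodSol e ρ vb κ lam w d μ :=
    fun κ hκ => good_of_near hN3 hN5 hfin hs hδ hρ1 hF hκ
  choose! D hD1 hD2 using hgood
  -- thresholds
  let ds : ℕ → ℝ := fun m => min (D (1 / ((m : ℝ) + 1))) (1 / ((m : ℝ) + 1))
  have hκpos : ∀ m : ℕ, (0 : ℝ) < 1 / ((m : ℝ) + 1) := fun m => by positivity
  have hds : ∀ m, 0 < ds m := fun m => lt_min (hD1 _ (hκpos m)) (hκpos m)
  classical
  let mm : ℝ → ℕ := fun lam => Nat.findGreatest (fun m => s * (lam - lamb) < ds m)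
    ⌈1 / (s * (lam - lamb))⌉₊
  have hmm1 : ∀ lam, 0 < s * (lam - lamb) → s * (lam - lamb) < ds 0 →
      s * (lam - lamb) < ds (mm lam) := by
    intro lam _ h0
    exact Nat.findGreatest_spec (P := fun m => s * (lam - lamb) < ds m) (Nat.zero_le _) h0
  have hmm2 : ∀ (M : ℕ) lam, 0 < s * (lam - lamb) → s * (lam - lamb) < ds M → M ≤ mm lam := by
    intro M lam hp h0
    refine Nat.le_findGreatest ?_ h0
    have h1 : s * (lam - lamb) < 1 / ((M : ℝ) + 1) := h0.trans_le (min_le_right _ _)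
    have h2 : (M : ℝ) + 1 < 1 / (s * (lam - lamb)) := by
      rw [lt_div_iff₀ (by positivity)] at h1
      rw [lt_div_iff₀ hp]; linarith
    have h3 : (M : ℝ) ≤ ⌈1 / (s * (lam - lamb))⌉₊ := by
      have := Nat.le_ceil (1 / (s * (lam - lamb)))
      linarith
    exact_mod_cast h3
  have hsol : ∀ lam, 0 < s * (lam - lamb) ∧ s * (lam - lamb) < ds 0 →
      ∃ (w : LV N) (d μ : ℝ), GoodSol e ρ vb (1 / ((mm lam : ℝ) + 1)) lam w d μ := by
    rintro lam ⟨h1, h2⟩
    exact hD2 _ (hκpos _) lam h1 ((hmm1 lam h1 h2).trans_le (min_le_left _ _))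
  choose! w d μ hw using hsol
  set S : Set ℝ := {lam | 0 < s * (lam - lamb) ∧ s * (lam - lamb) < ds 0} with hS
  -- the filter
  have habs : ∀ lam, 0 < s * (lam - lamb) → |lam - lamb| = s * (lam - lamb) := by
    intro lam h0
    rcases hs with rfl | rfl
    · rw [abs_of_pos (by linarith)]; ring
    · rw [abs_of_neg (by linarith)]; ring
  have hev : ∀ M : ℕ, ∀ᶠ lam in 𝓝[S \ {lamb}] lamb, lam ∈ S ∧ M ≤ mm lam := by
    intro M
    have h1 : ∀ᶠ lam in 𝓝[S \ {lamb}] lamb, lam ∈ S :=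
      eventually_nhdsWithin_of_forall fun lam hl => hl.1
    have h2 : ∀ᶠ lam in 𝓝[S \ {lamb}] lamb, |lam - lamb| < ds M := by
      refine nhdsWithin_le_nhds ?_
      have : ball lamb (ds M) ∈ 𝓝 lamb := ball_mem_nhds _ (hds M)
      filter_upwards [this] with lam hl
      rwa [mem_ball, Real.dist_eq] at hl
    filter_upwards [h1, h2] with lam hl hl2
    refine ⟨hl, hmm2 M lam hl.1 ?_⟩
    rwa [habs lam hl.1] at hl2
  have hκlim : Tendsto (fun lam => 1 / ((mm lam : ℝ) + 1)) (𝓝[S \ {lamb}] lamb) (𝓝 0) := by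
    rw [Metric.tendsto_nhds]
    intro ε hε
    obtain ⟨M, hM⟩ := exists_nat_one_div_lt hε
    filter_upwards [hev M] with lam hl
    rw [Real.dist_eq, sub_zero, abs_of_pos (hκpos _)]
    refine lt_of_le_of_lt ?_ hM
    have : (M : ℝ) ≤ mm lam := by exact_mod_cast hl.2
    exact one_div_le_one_div_of_le (by positivity) (by linarith)
  refine ⟨ρ, lamb, s, ds 0, hρ, hρ1, hlamb, hs, hds 0, ?_, ?_, fn vb, fun x => vb x,
    fun lam => fn (w lam), fun lam x => w lam x, μ, fun lam => cen e (d lam),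
    fun lam => fn (WW e ρ (d lam) (μ lam)), fun lam x => WW e ρ (d lam) (μ lam) x,
    ?_, ?_, ?_, ?_, ?_, ?_, ?_⟩
  · -- the parameters accumulate at `lamb`
    rw [← mem_closure_iff_nhdsWithin_neBot, Metric.mem_closure_iff]
    intro ε hε
    have hmin : 0 < min ε (ds 0) / 2 := by have := hds 0; positivity
    refine ⟨lamb + s * (min ε (ds 0) / 2), ⟨?_, ?_⟩, ?_⟩
    · have e1 : s * (lamb + s * (min ε (ds 0) / 2) - lamb) = min ε (ds 0) / 2 := by
        calc s * (lamb + s * (min ε (ds 0) / 2) - lamb) = (s * s) * (min ε (ds 0) / 2) := by ring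
          _ = _ := by rw [hs2, one_mul]
      show 0 < _ ∧ _ < _
      rw [e1]
      refine ⟨hmin, ?_⟩
      have := min_le_right ε (ds 0)
      have := hds 0
      linarith
    · intro h
      have h' : s * (min ε (ds 0) / 2) = 0 := by
        have : lamb + s * (min ε (ds 0) / 2) = lamb := h
        linarith
      have : min ε (ds 0) / 2 = 0 := by
        calc min ε (ds 0) / 2 = (s * s) * (min ε (ds 0) / 2) := by rw [hs2, one_mul]
          _ = s * (s * (min ε (ds 0) / 2)) := by ring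
          _ = 0 := by rw [h', mul_zero]
      linarith
    · rw [Real.dist_eq]
      have e1 : lamb - (lamb + s * (min ε (ds 0) / 2)) = -(s * (min ε (ds 0) / 2)) := by ring
      rw [e1, abs_neg, abs_mul]
      have : |s| = 1 := by rcases hs with rfl | rfl <;> norm_num
      rw [this, one_mul, abs_of_pos hmin]
      have := min_le_left ε (ds 0)
      linarith
  · by_cases h : N = 5
    · right; rw [if_pos h]
    · left; rw [if_neg h]
  · have := F0.vb_sol
    rw [hρ0, hl0, hv0] at this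
    exact isSolBN_of_weak hN3 hball hmeas this
  · exact hv0 ▸ ⟨F0.vb_pos, F0.vb_neg⟩
  · intro lam hl
    obtain ⟨g1, g2, g3, g4, g5, g6, g7, g8, g9⟩ := hw lam hl
    exact ⟨isSolBN_of_weak hN3 hball hmeas g1, g2, g6,
      (infDist_cen hρ hρ1 he g3 g5 (by omega)).1, isProj_of_T hN3 hball hmeas g6 _⟩
  · refine squeeze_zero_norm' ?_ hκlim
    filter_upwards [hev 0] with lam hl
    obtain ⟨g1, g2, g3, g4, g5, g6, g7, g8, g9⟩ := hw lam hl.1
    rw [Real.norm_eq_abs, abs_of_pos g6]; exact g7.le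
  · refine squeeze_zero_norm' ?_ hκlim
    filter_upwards [hev 0] with lam hl
    obtain ⟨g1, g2, g3, g4, g5, g6, g7, g8, g9⟩ := hw lam hl.1
    rw [Real.norm_eq_abs, abs_of_nonneg infDist_nonneg]
    exact (infDist_cen hρ hρ1 he g3 g5 (by omega)).2.trans g4.le
  · intro M
    obtain ⟨m, hm⟩ := exists_nat_ge M
    filter_upwards [hev m] with lam hl
    obtain ⟨g1, g2, g3, g4, g5, g6, g7, g8, g9⟩ := hw lam hl.1
    intro hcon
    apply g8
    filter_upwards [hcon] with x hx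
    refine hx.trans (hm.trans ?_)
    rw [one_div, inv_inv]
    have : (m : ℝ) ≤ mm lam := by exact_mod_cast hl.2
    linarith
  · have hle : ∀ᶠ lam in 𝓝[S \ {lamb}] lamb,
        eLpNorm (fun x => w lam x - vb x - (if N = 5 then (-1 : ℝ) else 1) •
          WW e ρ (d lam) (μ lam) x) 2 volume ≤ ENNReal.ofReal (1 / ((mm lam : ℝ) + 1)) := by
      filter_upwards [hev 0] with lam hl
      obtain ⟨g1, g2, g3, g4, g5, g6, g7, g8, g9⟩ := hw lam hl.1
      have e1 : eLpNorm (fun x => w lam x - vb x - (if N = 5 then (-1 : ℝ) else 1) •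
          WW e ρ (d lam) (μ lam) x) 2 volume
          = eLpNorm (w lam - vb - bet N • WW e ρ (d lam) (μ lam) : LV N) 2 volume := by
        apply eLpNorm_congr_ae
        filter_upwards [Lp.coeFn_sub (w lam - vb) (bet N • WW e ρ (d lam) (μ lam)),
          Lp.coeFn_sub (w lam) vb, Lp.coeFn_smul (bet N) (WW e ρ (d lam) (μ lam))] with x h1 h2 h3
        rw [h1, Pi.sub_apply, h2, h3]
        rfl
      rw [e1, ← ENNReal.ofReal_toReal (Lp.eLpNorm_ne_top _), ← Lp.norm_def]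
      exact ENNReal.ofReal_le_ofReal g9.le
    have hz : Tendsto (fun lam => ENNReal.ofReal (1 / ((mm lam : ℝ) + 1))) (𝓝[S \ {lamb}] lamb)
        (𝓝 0) := by
      have := ENNReal.tendsto_ofReal hκlim
      simpa using this
    exact tendsto_of_tendsto_of_tendsto_of_le_of_le' tendsto_const_nhds hz
      (Eventually.of_forall fun _ => zero_le) hle

end Pool.Agent.helper13.BN
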