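import Pool.Agent.helper29.BN.ProjSmall
import Pool.Agent.helper46.BN.BIntA
import Pool.Agent.helper11.BN.Proj

set_option autoImplicit false

/-! # BN: `int_self` from `proj_est` (and the import of `proj_small`) -/

open MeasureTheory Filter Topology Set Metric
open scoped ContDiff Gradient RealInnerProductSpace ENNReal

noncomputable section

namespace Pool.Agent.helper13.BN

variable {N : ℕ}

theorem int_self (hN : 3 ≤ N) (hN5 : N ≤ 5) {ρ : ℝ} (hρ : 0 < ρ) (hρ1 : ρ < 1) :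
    ∃ C d₁ : ℝ, 0 < C ∧ 0 < d₁ ∧ ρ < 1 - d₁ ∧ ∀ (e : E N) (d μ : ℝ), ‖e‖ = 1 → 0 < d → d < d₁ →
      0 < μ → μ ≤ d ^ 2 →
      |‖WW e ρ d μ‖ ^ 2 / 2 - (∫ x in ann N ρ, NL N (fn (WW e ρ d μ) x)) - sN N / N
        - aN N * alN N / 2 * (μ ^ cc N) ^ 2 * (2 * d) ^ (2 - (N : ℝ))| ≤ C * Er N d μ :=
  int_self_of hN hN5 hρ hρ1 (proj_est hN hN5 hρ hρ1)

end Pool.Agent.helper13.BN
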