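import Pool.Agent.helper13.BN.Defs3

set_option autoImplicit false

/-!
# MP_94a57f_an: statement

Self-contained definitions for the final statement: `H¹₀(Ω)`, solutions of `(BN_λ)`, the bubble and
its projection.
-/

open MeasureTheory Filter Topology Set Metric
open scoped ContDiff Gradient RealInnerProductSpace ENNReal

noncomputable section

namespace Pool.Agent.helper13.BN

variable {N : ℕ}

/-- `u ∈ H¹₀(Ω)` with gradient `G`: both are square integrable and are the `L²` limits of `φ_k`,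
`∇ φ_k` for a sequence of test functions `φ_k ∈ C_c^∞(Ω)`. (`u` and `G` are extended by `0`.) -/
structure InH10 (Ω : Set (E N)) (u : E N → ℝ) (G : E N → E N) : Prop where
  memLp : MemLp u 2 volume
  memLp_grad : MemLp G 2 volume
  approx : ∃ φ : ℕ → E N → ℝ, (∀ k, IsTest Ω (φ k)) ∧
    Tendsto (fun k => eLpNorm (fun x => φ k x - u x) 2 volume) atTop (𝓝 0) ∧
    Tendsto (fun k => eLpNorm (fun x => ∇ (φ k) x - G x) 2 volume) atTop (𝓝 0)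

/-- `u ∈ H¹₀(Ω)` (with gradient `G`) is a weak solution of
`-Δu = λ u + |u|^{2*-2} u` in `Ω`, `u = 0` on `∂Ω`. -/
def IsSolBN (Ω : Set (E N)) (lam : ℝ) (u : E N → ℝ) (G : E N → E N) : Prop :=
  InH10 Ω u G ∧ ∀ φ : E N → ℝ, IsTest Ω φ →
    Integrable (fun x => (lam * u x + |u x| ^ (ts N - 2) * u x) * φ x) ∧
    ∫ x, ⟪G x, ∇ φ x⟫ = ∫ x, (lam * u x + |u x| ^ (ts N - 2) * u x) * φ x

/-- the Aubin–Talenti bubble `α_N μ^{(N-2)/2} (μ² + |x-ξ|²)^{-(N-2)/2}`,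
`α_N = (N(N-2))^{(N-2)/4}` -/
def bubble (N : ℕ) (μ : ℝ) (ξ x : E N) : ℝ :=
  ((N : ℝ) * (N - 2)) ^ (((N : ℝ) - 2) / 4) * μ ^ (((N : ℝ) - 2) / 2) *
    (μ ^ 2 + ‖x - ξ‖ ^ 2) ^ (-(((N : ℝ) - 2) / 2))

/-- `W` (with gradient `G`) is the projection of the bubble: `W ∈ H¹₀(Ω)` and `ΔW = ΔU` in `Ω`. -/
def IsProj (Ω : Set (E N)) (μ : ℝ) (ξ : E N) (W : E N → ℝ) (G : E N → E N) : Prop :=
  InH10 Ω W G ∧ ∀ φ : E N → ℝ, IsTest Ω φ →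
    ∫ x, ⟪G x, ∇ φ x⟫ = ∫ x, ⟪∇ (bubble N μ ξ) x, ∇ φ x⟫

/-- both `u⁺` and `u⁻` are nonzero -/
def SignChanging (u : E N → ℝ) : Prop := (¬ ∀ᵐ x, u x ≤ 0) ∧ ¬ ∀ᵐ x, 0 ≤ u x

/-- Sign-changing solutions of `(BN_λ)` in `Ω` concentrate at the boundary at `lamb`, with one
bubble of sign `β`, for `λ` ranging over `S`, `λ → lamb`: there are a nontrivial solution `u₀` of
`(BN_lamb)` (here even sign-changing) and, for `λ ∈ S`, sign-changing solutions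
`u_λ = u₀ + β W_{μ(λ),ξ(λ)} + φ_λ` of `(BN_λ)`, `ξ(λ) ∈ Ω`, such that, as `λ → lamb` in `S`,
`μ(λ) → 0`, `dist(ξ(λ), ∂Ω) → 0`, `‖u_λ‖_∞ → ∞` and `‖∇φ_λ‖_{L²} → 0`. -/
def Concentrate (Ω : Set (E N)) (lamb : ℝ) (β : ℝ) (S : Set ℝ) : Prop :=
  (𝓝[S \ {lamb}] lamb).NeBot ∧ (β = 1 ∨ β = -1) ∧
  ∃ (u₀ : E N → ℝ) (G₀ : E N → E N) (u : ℝ → E N → ℝ) (G : ℝ → E N → E N)
    (μ : ℝ → ℝ) (ξ : ℝ → E N) (W : ℝ → E N → ℝ) (H : ℝ → E N → E N),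
    IsSolBN Ω lamb u₀ G₀ ∧ SignChanging u₀ ∧
    (∀ lam ∈ S, IsSolBN Ω lam (u lam) (G lam) ∧ SignChanging (u lam) ∧
      0 < μ lam ∧ ξ lam ∈ Ω ∧ IsProj Ω (μ lam) (ξ lam) (W lam) (H lam)) ∧
    Tendsto μ (𝓝[S \ {lamb}] lamb) (𝓝 0) ∧
    Tendsto (fun lam => infDist (ξ lam) (frontier Ω)) (𝓝[S \ {lamb}] lamb) (𝓝 0) ∧
    (∀ M : ℝ, ∀ᶠ lam in 𝓝[S \ {lamb}] lamb, ¬ ∀ᵐ x, |u lam x| ≤ M) ∧
    Tendsto (fun lam => eLpNorm (fun x => G lam x - G₀ x - β • H lam x) 2 volume)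
      (𝓝[S \ {lamb}] lamb) (𝓝 0)

/-- THE STATEMENT -/
def MainStatement : Prop :=
  ∀ N : ℕ, N = 3 ∨ N = 4 ∨ N = 5 → ∃ ρ lamb s δ : ℝ, 0 < ρ ∧ ρ < 1 ∧ 0 < lamb ∧
    (s = 1 ∨ s = -1) ∧ 0 < δ ∧
    Concentrate {x : E N | ρ < ‖x‖ ∧ ‖x‖ < 1} lamb (if N = 5 then -1 else 1)
      {lam | 0 < s * (lam - lamb) ∧ s * (lam - lamb) < δ}

end Pool.Agent.helper13.BN
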